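import Pool.Agent.Q5.Cheb.Main

/-!
# MP_a01b15_nt: a maximal Chebyshev curve forces `p` to be a primitive root

For distinct primes `ℓ ≡ p ≡ 1 (mod 4)`, if the hyperelliptic curve `y² = φ_ℓ(x)` is maximal over
some finite field of characteristic `p`, then `p` is a primitive root modulo `ℓ`.
-/

set_option autoImplicit false

namespace Pool.Agent.Results.MP_a01b15_nt.PrimitiveRoot

open Polynomial

/-- The monic polynomial `φ_ℓ ∈ ℤ[x]` with `φ_ℓ (t + 1/t) = t ^ ℓ + 1/t ^ ℓ`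
(see `phi_spec`): Mathlib's Dickson polynomial of the first kind with parameter `1`. -/
noncomputable def phi (ℓ : ℕ) : ℤ[X] := dickson 1 (1 : ℤ) ℓ

/-- The characterising property of `φ_ℓ`. -/
theorem phi_spec (ℓ : ℕ) (K : Type*) [Field K] (t : K) (ht : t ≠ 0) :
    ((phi ℓ).map (Int.castRingHom K)).eval (t + t⁻¹) = t ^ ℓ + (t⁻¹) ^ ℓ := by
  unfold phi
  rw [map_dickson, map_one, dickson_one_one_eval_add_inv _ _ (mul_inv_cancel₀ ht)]

/-- The number of points over the finite field `F` of the smooth projective model of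
`y² = φ_ℓ(x)`: the affine solutions and, `φ_ℓ` having odd degree `ℓ`, one point at infinity. -/
noncomputable def numPoints (ℓ : ℕ) (F : Type) [Field F] : ℕ :=
  Nat.card {P : F × F // P.2 ^ 2 = ((phi ℓ).map (Int.castRingHom F)).eval P.1} + 1

/-- `H_ℓ` is maximal in characteristic `p`: for some `f ≥ 1`, over a field with `p ^ (2 f) = q²`
elements the curve, of genus `g = (ℓ - 1) / 2`, has `q² + 1 + 2 g q` points. -/
def IsMaximalInChar (ℓ p : ℕ) : Prop :=
  ∃ f : ℕ, 1 ≤ f ∧ ∃ (F : Type) (_ : Field F), Nat.card F = p ^ (2 * f) ∧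
    numPoints ℓ F = (p ^ f) ^ 2 + 1 + 2 * ((ℓ - 1) / 2) * p ^ f

/-- If `ℓ ≡ p ≡ 1 (mod 4)` are distinct primes and `y² = φ_ℓ(x)` is maximal in characteristic `p`,
then `p` is a primitive root modulo `ℓ`. -/
theorem result :
    ∀ ℓ p : ℕ, ℓ.Prime → p.Prime → ℓ ≠ p → ℓ % 4 = 1 → p % 4 = 1 →
      IsMaximalInChar ℓ p → orderOf (p : ZMod ℓ) = ℓ - 1 := by
  rintro ℓ p hℓ hp hne hℓ4 hp4 ⟨f, hf, F, _, hF, hmax⟩
  have hpos : 0 < Nat.card F := by
    rw [hF]; exact pow_pos hp.pos _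
  have : Finite F := (Nat.card_pos_iff.1 hpos).2
  apply Pool.Agent.Q5.Cheb.main ℓ p hℓ hp hne hℓ4 hp4 f hf F hF
  unfold numPoints phi at hmax
  rw [map_dickson, map_one] at hmax
  have h1 : 2 * ((ℓ - 1) / 2) = ℓ - 1 := by omega
  rw [h1] at hmax
  have h2 : Nat.card {P : F × F // P.2 ^ 2 = (dickson 1 (1 : F) ℓ).eval P.1} =
      (p ^ f) ^ 2 + (ℓ - 1) * p ^ f := by omega
  rw [h2]
  have h3 : 1 ≤ ℓ := hℓ.pos
  push_cast [Nat.cast_sub h3]
  ring

end Pool.Agent.Results.MP_a01b15_nt.PrimitiveRoot
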